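import Mathlib

/-!
# Sums of a polynomial over the fractions `m / n`: local conditions

For integers `b`, `x_1, ..., x_S` put `P(m) = b + ∑_{n < m} ∑_{s ≤ S} x_s (m / n) ^ s`. If `P(m) = 0`
for all `m` with `p < m < 2 p`, `p` prime, then `p ^ min(S, p - 1)` divides `x_s p ^ (S - s)`.
-/

set_option autoImplicit false

namespace Pool.Agent.D0H25.DZ

open Finset

/-- `P(m) = b + ∑_{n < m} ∑_{s ≤ S} x_s (m / n) ^ s` -/
def PP (b : ℤ) (x : ℕ → ℤ) (S m : ℕ) : ℚ :=
  b + ∑ n ∈ Ico 1 m, ∑ s ∈ Icc 1 S, (x s : ℚ) * ((m : ℚ) / n) ^ s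

/-- the divisibility by `p ^ S` of the numerator -/
lemma num_dvd (b : ℤ) (x : ℕ → ℤ) (S p m : ℕ) [hp : Fact p.Prime] (h0 : PP b x S m = 0)
    (hm : p < m) (hm2 : m < 2 * p) :
    (p : ℤ) ^ S ∣ ∑ s ∈ Icc 1 S, x s * (m : ℤ) ^ s * (p : ℤ) ^ (S - s) := by
  have hp0 : (p : ℚ) ≠ 0 := by exact_mod_cast hp.1.ne_zero
  have hpm : p ∈ Ico 1 m := mem_Ico.2 ⟨hp.1.one_lt.le, hm⟩
  have h1 : ∑ s ∈ Icc 1 S, (x s : ℚ) * ((m : ℚ) / p) ^ s =
      -(b + ∑ n ∈ (Ico 1 m).erase p, ∑ s ∈ Icc 1 S, (x s : ℚ) * ((m : ℚ) / n) ^ s) := by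
    rw [PP, ← add_sum_erase _ _ hpm] at h0
    linarith
  have hn : ∀ n ∈ (Ico 1 m).erase p, padicNorm p ((m : ℚ) / n) ≤ 1 := by
    intro n hn
    rw [mem_erase, mem_Ico] at hn
    have h2 : ¬ p ∣ n := by
      rintro ⟨j, rfl⟩
      have hj : j < 2 := by
        by_contra hj
        have : p * 2 ≤ p * j := Nat.mul_le_mul_left _ (by omega)
        omega
      interval_cases j
      · omega
      · exact hn.1 (by ring)
    rw [padicNorm.div, (padicNorm.nat_eq_one_iff n).2 h2, div_one]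
    exact padicNorm.of_nat m
  have hterm : ∀ (n : ℕ) (s : ℕ), padicNorm p ((m : ℚ) / n) ≤ 1 →
      padicNorm p ((x s : ℚ) * ((m : ℚ) / n) ^ s) ≤ 1 := by
    intro n s h
    rw [padicNorm.mul]
    have h3 : padicNorm p (((m : ℚ) / n) ^ s) ≤ 1 := by
      have h4 : padicNorm p (((m : ℚ) / n) ^ s) = padicNorm p ((m : ℚ) / n) ^ s :=
        map_pow (⟨⟨padicNorm p, padicNorm.zero⟩, padicNorm.one, fun a b => padicNorm.mul a b⟩ :
          ℚ →*₀ ℚ) _ _
      rw [h4]
      exact pow_le_one₀ (padicNorm.nonneg _) h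
    exact mul_le_one₀ (padicNorm.of_int _) (padicNorm.nonneg _) h3
  have h2 : padicNorm p (∑ s ∈ Icc 1 S, (x s : ℚ) * ((m : ℚ) / p) ^ s) ≤ 1 := by
    rw [h1, padicNorm.neg]
    refine padicNorm.nonarchimedean.trans (max_le (padicNorm.of_int b) ?_)
    exact padicNorm.sum_le' (fun n hn' => padicNorm.sum_le' (fun s _ => hterm n s (hn n hn'))
      zero_le_one) zero_le_one
  have h3 : ((∑ s ∈ Icc 1 S, x s * (m : ℤ) ^ s * (p : ℤ) ^ (S - s) : ℤ) : ℚ) =
      (p : ℚ) ^ S * ∑ s ∈ Icc 1 S, (x s : ℚ) * ((m : ℚ) / p) ^ s := by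
    push_cast
    rw [mul_sum]
    refine sum_congr rfl fun s hs => ?_
    have h4 : (p : ℚ) ^ S = (p : ℚ) ^ s * (p : ℚ) ^ (S - s) := by
      rw [← pow_add]
      congr 1
      have := (mem_Icc.1 hs).2
      omega
    rw [h4, div_pow]
    field_simp
  have h4 := (padicNorm.dvd_iff_norm_le (p := p) (n := S)
    (z := ∑ s ∈ Icc 1 S, x s * (m : ℤ) ^ s * (p : ℤ) ^ (S - s))).2 (by
      rw [h3, padicNorm.mul]
      have h5 : padicNorm p ((p : ℚ) ^ S) = (p : ℚ) ^ (-S : ℤ) := by
        have h4 : padicNorm p ((p : ℚ) ^ S) = padicNorm p (p : ℚ) ^ S :=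
          map_pow (⟨⟨padicNorm p, padicNorm.zero⟩, padicNorm.one, fun a b => padicNorm.mul a b⟩ :
            ℚ →*₀ ℚ) _ _
        rw [h4, padicNorm.padicNorm_p hp.1.one_lt, zpow_neg, zpow_natCast, inv_pow]
      rw [h5]
      exact mul_le_of_le_one_right (zpow_nonneg (by positivity) _) h2)
  exact_mod_cast h4

/-- the local condition -/
lemma local_dvd (b : ℤ) (x : ℕ → ℤ) (S p : ℕ) [hp : Fact p.Prime]
    (h0 : ∀ m, p < m → m < 2 * p → PP b x S m = 0) (e : ℕ) (heS : e ≤ S) (hep : e ≤ p - 1) :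
    ∀ s ∈ Icc 1 S, (p : ℤ) ^ e ∣ x s * (p : ℤ) ^ (S - s) := by
  induction e with
  | zero => intro s _; simp
  | succ e ih =>
    have ih' := ih (by omega) (by omega)
    have hpZ : (p : ℤ) ≠ 0 := by exact_mod_cast hp.1.ne_zero
    have h1p : 1 < p := hp.1.one_lt
    choose! a ha using ih'
    -- the coefficients `a s` with `S - s > e` are divisible by `p`
    have hsmall : ∀ s ∈ Icc 1 S, e < S - s → (p : ℤ) ∣ a s := by
      intro s hs h
      have h1 := ha s hs
      have h2 : (p : ℤ) ^ (e + 1) ∣ x s * (p : ℤ) ^ (S - s) :=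
        (pow_dvd_pow _ (by omega)).trans (dvd_mul_left _ _)
      rw [h1, pow_succ] at h2
      exact (mul_dvd_mul_iff_left (pow_ne_zero e hpZ)).1 h2
    -- congruence
    have hcong : ∀ m, p < m → m < 2 * p → (p : ℤ) ∣ ∑ s ∈ Icc 1 S, a s * (m : ℤ) ^ s := by
      intro m hm hm2
      have h1 := num_dvd b x S p m (h0 m hm hm2) hm hm2
      have h2 : ∑ s ∈ Icc 1 S, x s * (m : ℤ) ^ s * (p : ℤ) ^ (S - s) =
          (p : ℤ) ^ e * ∑ s ∈ Icc 1 S, a s * (m : ℤ) ^ s := by
        rw [mul_sum]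
        refine sum_congr rfl fun s hs => ?_
        have h3 := ha s hs
        calc x s * (m : ℤ) ^ s * (p : ℤ) ^ (S - s) = x s * (p : ℤ) ^ (S - s) * (m : ℤ) ^ s := by
              ring
          _ = _ := by rw [h3]; ring
      rw [h2] at h1
      have h3 : (p : ℤ) ^ (e + 1) ∣ (p : ℤ) ^ e * ∑ s ∈ Icc 1 S, a s * (m : ℤ) ^ s :=
        (pow_dvd_pow _ heS).trans h1
      rw [pow_succ] at h3
      exact (mul_dvd_mul_iff_left (pow_ne_zero e hpZ)).1 h3
    -- the polynomial
    set h : Polynomial (ZMod p) := ∑ j ∈ range (e + 1),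
      Polynomial.C ((a (S - e + j) : ℤ) : ZMod p) * Polynomial.X ^ j with hh
    have hdeg : h.natDegree < p - 1 := by
      refine lt_of_le_of_lt (Polynomial.natDegree_sum_le_of_forall_le (n := e) _ _ fun j hj => ?_)
        (by omega)
      refine (Polynomial.natDegree_C_mul_X_pow_le _ _).trans ?_
      have := mem_range.1 hj
      omega
    have hroot : ∀ j : Fin (p - 1), h.eval (((j : ℕ) + 1 : ℕ) : ZMod p) = 0 := by
      intro j
      have hj := j.2
      have h1 := hcong (p + (j + 1)) (by omega) (by omega)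
      have h2 : ((∑ s ∈ Icc 1 S, a s * ((p + ((j : ℕ) + 1) : ℕ) : ℤ) ^ s : ℤ) : ZMod p) = 0 :=
        (ZMod.intCast_zmod_eq_zero_iff_dvd _ _).2 h1
      push_cast at h2
      rw [CharP.cast_eq_zero, zero_add] at h2
      have h3 : ∑ s ∈ Icc 1 S, ((a s : ℤ) : ZMod p) * (((j : ℕ) : ZMod p) + 1) ^ s =
          ∑ s ∈ Icc (S - e) S, ((a s : ℤ) : ZMod p) * (((j : ℕ) : ZMod p) + 1) ^ s := by
        symm
        refine sum_subset (Icc_subset_Icc_left (by omega)) fun s hs hs' => ?_
        have h4 : e < S - s := by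
          rw [mem_Icc] at hs
          rw [mem_Icc, not_and_or] at hs'
          omega
        have h5 := (ZMod.intCast_zmod_eq_zero_iff_dvd (a s) p).2 (hsmall s hs h4)
        rw [h5, zero_mul]
      rw [h3] at h2
      have h4 : ∑ s ∈ Icc (S - e) S, ((a s : ℤ) : ZMod p) * (((j : ℕ) : ZMod p) + 1) ^ s =
          (((j : ℕ) : ZMod p) + 1) ^ (S - e) *
            h.eval (((j : ℕ) + 1 : ℕ) : ZMod p) := by
        rw [hh, Polynomial.eval_finsetSum, mul_sum]
        have h5 : Icc (S - e) S = (range (e + 1)).image (fun j => S - e + j) := by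
          ext s
          simp only [mem_Icc, mem_image, mem_range]
          constructor
          · intro h
            exact ⟨s - (S - e), by omega, by omega⟩
          · rintro ⟨i, hi, rfl⟩
            omega
        rw [h5, sum_image (by
          intro u _ v _ huv
          simpa using huv)]
        refine sum_congr rfl fun i _ => ?_
        simp only [Polynomial.eval_mul, Polynomial.eval_C, Polynomial.eval_pow, Polynomial.eval_X]
        push_cast
        ring
      rw [h4] at h2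
      rcases mul_eq_zero.1 h2 with h5 | h5
      · exfalso
        have h6 := pow_eq_zero_iff (n := S - e) (by omega) |>.1 h5
        have h7 : (((j : ℕ) + 1 : ℕ) : ZMod p) = 0 := by push_cast; exact h6
        rw [ZMod.natCast_eq_zero_iff] at h7
        exact absurd (Nat.le_of_dvd (by omega) h7) (by omega)
      · exact h5
    have hz : h = 0 := by
      refine Polynomial.eq_zero_of_natDegree_lt_card_of_eval_eq_zero h
        (f := fun j : Fin (p - 1) => (((j : ℕ) + 1 : ℕ) : ZMod p)) ?_ hroot (by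
          rw [Fintype.card_fin]; exact hdeg)
      intro i j hij
      have hi := i.2
      have hj := j.2
      have h1 : (((i : ℕ) + 1 : ℕ) : ZMod p) = (((j : ℕ) + 1 : ℕ) : ZMod p) := hij
      rw [ZMod.natCast_eq_natCast_iff'] at h1
      rw [Nat.mod_eq_of_lt (by omega), Nat.mod_eq_of_lt (by omega)] at h1
      apply Fin.ext
      omega
    intro s hs
    have h1 : (p : ℤ) ∣ a s := by
      by_cases hse : e < S - s
      · exact hsmall s hs hse
      · have hs' := mem_Icc.1 hs
        have h2 : h.coeff (s - (S - e)) = ((a s : ℤ) : ZMod p) := by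
          rw [hh, Polynomial.finsetSum_coeff]
          rw [sum_eq_single (s - (S - e))]
          · rw [Polynomial.coeff_C_mul_X_pow, if_pos rfl]
            congr 2
            omega
          · intro i _ hi
            rw [Polynomial.coeff_C_mul_X_pow, if_neg (Ne.symm hi)]
          · intro hi
            exfalso
            rw [mem_range] at hi
            omega
        rw [hz, Polynomial.coeff_zero] at h2
        exact (ZMod.intCast_zmod_eq_zero_iff_dvd _ _).1 h2.symm
    rw [ha s hs, pow_succ]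
    exact mul_dvd_mul_left _ h1

end Pool.Agent.D0H25.DZ
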