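import Mathlib
import Pool.Agent.D0H25.DZ.Local

/-!
# Vanishing of the first sums forces large coefficients
-/

set_option autoImplicit false

namespace Pool.Agent.D0H25.DZ

open Finset

lemma PP_congr (b : ℤ) (x y : ℕ → ℤ) (S m : ℕ) (h : ∀ s ∈ Icc 1 S, x s = y s) :
    PP b x S m = PP b y S m := by
  rw [PP, PP]
  congr 1
  exact sum_congr rfl fun n _ => sum_congr rfl fun s hs => by rw [h s hs]

lemma PP_mul (d b : ℤ) (x : ℕ → ℤ) (S m : ℕ) :
    PP (d * b) (fun s => d * x s) S m = d * PP b x S m := by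
  rw [PP, PP, mul_add, mul_sum]
  push_cast
  congr 1
  refine sum_congr rfl fun n _ => ?_
  rw [mul_sum]
  exact sum_congr rfl fun s _ => by ring

lemma PP_two (b : ℤ) (x : ℕ → ℤ) (S : ℕ) :
    PP b x S 2 = ((b + ∑ s ∈ Icc 1 S, x s * 2 ^ s : ℤ) : ℚ) := by
  rw [PP]
  have h : Ico 1 2 = {1} := by decide
  rw [h, sum_singleton]
  push_cast
  simp

/-- if there is a prime `p > S` with `2 p ≤ M + 1`, then the sums `P(2), ..., P(M)` determine
the coefficients -/
lemma top_zero (b : ℤ) (x : ℕ → ℤ) (S p M : ℕ) (hp : p.Prime) (hS : 1 ≤ S) (hSp : S < p)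
    (hpM : 2 * p ≤ M + 1) (h0 : ∀ m, 2 ≤ m → m ≤ M → PP b x S m = 0) : x S = 0 := by
  haveI : Fact p.Prime := ⟨hp⟩
  have h2p := hp.two_le
  have hpZ : (p : ℤ) ≠ 0 := by exact_mod_cast hp.ne_zero
  have key : ∀ j : ℕ, ∀ (b : ℤ) (x : ℕ → ℤ), (∀ m, 2 ≤ m → m ≤ M → PP b x S m = 0) →
      (p : ℤ) ^ j ∣ x S := by
    intro j
    induction j with
    | zero => intro b x _; simp
    | succ j ih =>
      intro b x h0
      have h1 : ∀ s ∈ Icc 1 S, (p : ℤ) ∣ x s := by
        intro s hs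
        have hs' := mem_Icc.1 hs
        have h2 := local_dvd b x S p (fun m h h' => h0 m (by omega) (by omega)) S le_rfl (by omega)
          s hs
        have h3 : (p : ℤ) ^ S = (p : ℤ) ^ s * (p : ℤ) ^ (S - s) := by
          rw [← pow_add]
          congr 1
          omega
        rw [h3] at h2
        have h4 := (mul_dvd_mul_iff_right (pow_ne_zero (S - s) hpZ)).1 h2
        exact (dvd_pow_self (p : ℤ) (by omega)).trans h4
      have h2 : (p : ℤ) ∣ b := by
        have h3 := h0 2 le_rfl (by omega)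
        rw [PP_two] at h3
        have h4 : b + ∑ s ∈ Icc 1 S, x s * 2 ^ s = 0 := by exact_mod_cast h3
        have h5 : (p : ℤ) ∣ ∑ s ∈ Icc 1 S, x s * 2 ^ s :=
          dvd_sum fun s hs => (h1 s hs).mul_right _
        have h6 : b = -∑ s ∈ Icc 1 S, x s * 2 ^ s := by linarith
        rw [h6]
        exact (dvd_neg).2 h5
      obtain ⟨b', rfl⟩ := h2
      choose! x' hx' using h1
      have h3 : ∀ m, 2 ≤ m → m ≤ M → PP b' x' S m = 0 := by
        intro m hm hm2
        have h4 := h0 m hm hm2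
        rw [PP_congr _ x (fun s => (p : ℤ) * x' s) S m hx', PP_mul] at h4
        rcases mul_eq_zero.1 h4 with h5 | h5
        · exact absurd h5 (by exact_mod_cast hp.ne_zero)
        · exact h5
      have h4 := ih b' x' h3
      rw [hx' S (mem_Icc.2 ⟨hS, le_rfl⟩), pow_succ, mul_comm (p : ℤ)]
      exact mul_dvd_mul_right h4 _
  by_contra hx
  have h1 := key (x S).natAbs b x h0
  have h2 := Int.le_of_dvd (abs_pos.2 hx) ((dvd_abs _ _).2 h1)
  have h3 : ((x S).natAbs : ℤ) < (p : ℤ) ^ (x S).natAbs := by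
    exact_mod_cast Nat.lt_pow_self hp.one_lt
  rw [Int.natCast_natAbs] at h3
  omega

/-- the product of the powers `p ^ (p - 1)` -/
def QQ (y : ℕ) : ℕ := ∏ p ∈ Nat.primesLE y, p ^ (p - 1)

/-- if `P(2) = ... = P(M) = 0`, and `x_S` is not zero, then `x_S` is large -/
lemma top_large (b : ℤ) (x : ℕ → ℤ) (S M y : ℕ) (hS : 1 ≤ S) (hxS : x S ≠ 0)
    (hyM : 2 * y ≤ M + 1) (h0 : ∀ m, 2 ≤ m → m ≤ M → PP b x S m = 0) :
    ((QQ y : ℕ) : ℤ) ≤ |x S| := by
  have h1 : ∀ p ∈ Nat.primesLE y, ((p ^ (p - 1) : ℕ) : ℤ) ∣ x S := by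
    intro p hp
    rw [Nat.mem_primesLE] at hp
    have hpS : p ≤ S := by
      by_contra h
      exact hxS (top_zero b x S p M hp.2 hS (by omega) (by omega) h0)
    haveI : Fact p.Prime := ⟨hp.2⟩
    have h2p := hp.2.two_le
    have h2 := local_dvd b x S p (fun m h h' => h0 m (by omega) (by omega)) (p - 1) (by omega)
      le_rfl S (mem_Icc.2 ⟨hS, le_rfl⟩)
    rw [Nat.sub_self, pow_zero, mul_one] at h2
    exact_mod_cast h2
  have h2 : ((QQ y : ℕ) : ℤ) ∣ x S := by
    rw [QQ]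
    push_cast
    refine Finset.prod_dvd_of_coprime ?_ fun p hp => by exact_mod_cast h1 p hp
    intro p hp q hq hpq
    rw [Finset.mem_coe, Nat.mem_primesLE] at hp hq
    exact (Nat.isCoprime_iff_coprime.2 ((Nat.coprime_primes hp.2 hq.2).2 hpq)).pow
  exact Int.le_of_dvd (abs_pos.2 hxS) ((dvd_abs _ _).2 h2)

/-- a relation with `b`, `x` not all zero and `|x_s| ≤ H` for `s ≤ S` does not have
`P(2) = ... = P(M) = 0` if `M` is large in terms of `S` or in terms of `H` -/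
lemma exists_ne (b : ℤ) (x : ℕ → ℤ) (S M y : ℕ) (hyM : 2 * y ≤ M + 1) (hM : 2 ≤ M)
    (hne : ¬ (b = 0 ∧ ∀ s ∈ Icc 1 S, x s = 0))
    (h : (∃ p, p.Prime ∧ S < p ∧ 2 * p ≤ M + 1) ∨
      (∀ s ∈ Icc 1 S, |x s| < ((QQ y : ℕ) : ℤ))) :
    ∃ m, 2 ≤ m ∧ m ≤ M ∧ PP b x S m ≠ 0 := by
  by_contra hcon
  push Not at hcon
  by_cases hx : ∀ s ∈ Icc 1 S, x s = 0
  · have h1 := hcon 2 le_rfl hM
    rw [PP_two] at h1
    have h2 : ∑ s ∈ Icc 1 S, x s * 2 ^ s = 0 := sum_eq_zero fun s hs => by rw [hx s hs, zero_mul]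
    rw [h2, add_zero] at h1
    exact hne ⟨by exact_mod_cast h1, hx⟩
  · push Not at hx
    -- the largest index
    obtain ⟨s0, hs0, hs0x⟩ := hx
    set T := (Icc 1 S).filter fun s => x s ≠ 0 with hT
    have hTne : T.Nonempty := ⟨s0, mem_filter.2 ⟨hs0, hs0x⟩⟩
    set R := T.max' hTne with hR
    have hRT : R ∈ T := T.max'_mem hTne
    rw [hT, mem_filter, mem_Icc] at hRT
    have hRmax : ∀ s ∈ Icc 1 S, R < s → x s = 0 := by
      intro s hs hlt
      by_contra hsx
      have := T.le_max' s (mem_filter.2 ⟨hs, hsx⟩)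
      omega
    have h0 : ∀ m, 2 ≤ m → m ≤ M → PP b x R m = 0 := by
      intro m hm hm2
      rw [← hcon m hm hm2, PP, PP]
      congr 1
      refine sum_congr rfl fun n _ => ?_
      refine sum_subset (Icc_subset_Icc_right hRT.1.2) fun s hs hs' => ?_
      have h1 : R < s := by
        rw [mem_Icc] at hs hs'
        omega
      rw [hRmax s hs h1]
      simp
    rcases h with ⟨p, hp, hSp, hpM⟩ | h
    · exact hRT.2 (top_zero b x R p M hp hRT.1.1 (by omega) hpM h0)
    · have h1 := top_large b x R M y hRT.1.1 hRT.2 hyM h0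
      have h2 := h R (mem_Icc.2 hRT.1)
      omega

end Pool.Agent.D0H25.DZ
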