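import Mathlib
import Pool.Agent.D0H25.DZ.Global

/-!
# The series of the sums `P(m) / m ^ k`
-/

set_option autoImplicit false

namespace Pool.Agent.D0H25.DZ

open Finset

/-- the common denominator of `P(m)` -/
lemma PP_den (b : ℤ) (x : ℕ → ℤ) (S m : ℕ) :
    ∃ z : ℤ, (z : ℚ) = (Nat.lcmUpto (m - 1) : ℚ) ^ S * PP b x S m := by
  have h1 : ∀ n ∈ Ico 1 m, ∀ s ∈ Icc 1 S, ∃ z : ℤ,
      (z : ℚ) = (Nat.lcmUpto (m - 1) : ℚ) ^ S * ((x s : ℚ) * ((m : ℚ) / n) ^ s) := by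
    intro n hn s hs
    rw [mem_Ico] at hn
    rw [mem_Icc] at hs
    have h2 : n ∣ Nat.lcmUpto (m - 1) := by
      have := Finset.dvd_lcm (f := id) (s := Icc 1 (m - 1)) (b := n)
        (mem_Icc.2 ⟨hn.1, by omega⟩)
      exact this
    obtain ⟨d, hd⟩ := h2
    have hn0 : (n : ℚ) ≠ 0 := by
      have : n ≠ 0 := by omega
      exact_mod_cast this
    refine ⟨(Nat.lcmUpto (m - 1) : ℤ) ^ (S - s) * (x s * (d : ℤ) ^ s * (m : ℤ) ^ s), ?_⟩
    have h3 : (Nat.lcmUpto (m - 1) : ℚ) ^ S =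
        (Nat.lcmUpto (m - 1) : ℚ) ^ (S - s) * (Nat.lcmUpto (m - 1) : ℚ) ^ s := by
      rw [← pow_add]
      congr 1
      omega
    have h4 : (Nat.lcmUpto (m - 1) : ℚ) = n * d := by exact_mod_cast hd
    push_cast
    have h5 : (Nat.lcmUpto (m - 1) : ℚ) ^ s * ((m : ℚ) / n) ^ s = (d : ℚ) ^ s * (m : ℚ) ^ s := by
      rw [h4, div_pow, mul_pow]
      field_simp
    rw [h3]
    calc (Nat.lcmUpto (m - 1) : ℚ) ^ (S - s) * ((x s : ℚ) * (d : ℚ) ^ s * (m : ℚ) ^ s)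
        = (Nat.lcmUpto (m - 1) : ℚ) ^ (S - s) * (x s : ℚ) * ((d : ℚ) ^ s * (m : ℚ) ^ s) := by ring
      _ = _ := by rw [← h5]; ring
  choose! f hf using h1
  refine ⟨(Nat.lcmUpto (m - 1) : ℤ) ^ S * b + ∑ n ∈ Ico 1 m, ∑ s ∈ Icc 1 S, f n s, ?_⟩
  rw [PP, mul_add, mul_sum]
  push_cast
  congr 1
  refine sum_congr rfl fun n hn => ?_
  rw [mul_sum]
  exact sum_congr rfl fun s hs => hf n hn s hs

lemma PP_lower (b : ℤ) (x : ℕ → ℤ) (S m : ℕ) (h : PP b x S m ≠ 0) :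
    1 / (Nat.lcmUpto (m - 1) : ℝ) ^ S ≤ |((PP b x S m : ℚ) : ℝ)| := by
  obtain ⟨z, hz⟩ := PP_den b x S m
  have hL : (0 : ℚ) < (Nat.lcmUpto (m - 1) : ℚ) ^ S := by
    have := Nat.lcmUpto_pos (m - 1)
    positivity
  have hz0 : z ≠ 0 := by
    rintro rfl
    rw [Int.cast_zero] at hz
    exact mul_ne_zero hL.ne' h hz.symm
  have h1 : (1 : ℚ) ≤ |(z : ℚ)| := by exact_mod_cast Int.one_le_abs hz0
  rw [hz, abs_mul, abs_of_pos hL] at h1
  have h2 : 1 / (Nat.lcmUpto (m - 1) : ℚ) ^ S ≤ |PP b x S m| := by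
    rw [div_le_iff₀ hL]
    linarith
  have h3 := (Rat.cast_le (K := ℝ)).2 h2
  push_cast at h3
  exact h3

lemma PP_upper (b : ℤ) (x : ℕ → ℤ) (S m : ℕ) (hS : 1 ≤ S) (hm : 1 ≤ m) (H : ℝ)
    (hb : |(b : ℝ)| ≤ H) (hx : ∀ s ∈ Icc 1 S, |(x s : ℝ)| ≤ H) :
    |((PP b x S m : ℚ) : ℝ)| ≤ H * S * (m : ℝ) ^ (S + 1) := by
  have hH : 0 ≤ H := (abs_nonneg _).trans hb
  have hm1 : (1 : ℝ) ≤ m := by exact_mod_cast hm
  have hS1 : (1 : ℝ) ≤ S := by exact_mod_cast hS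
  rw [PP]
  push_cast
  have h1 : ∀ n ∈ Ico 1 m, |∑ s ∈ Icc 1 S, (x s : ℝ) * ((m : ℝ) / n) ^ s| ≤
      S * (H * (m : ℝ) ^ S) := by
    intro n hn
    rw [mem_Ico] at hn
    refine (abs_sum_le_sum_abs _ _).trans ?_
    calc ∑ s ∈ Icc 1 S, |(x s : ℝ) * ((m : ℝ) / n) ^ s|
        ≤ ∑ s ∈ Icc 1 S, H * (m : ℝ) ^ S := by
          refine sum_le_sum fun s hs => ?_
          rw [abs_mul]
          have hn1 : (1 : ℝ) ≤ n := by exact_mod_cast hn.1
          have h2 : (m : ℝ) / n ≤ m := div_le_self (by linarith) hn1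
          have h3 : |((m : ℝ) / n) ^ s| ≤ (m : ℝ) ^ S := by
            rw [abs_of_nonneg (by positivity)]
            exact (pow_le_pow_left₀ (by positivity) h2 s).trans
              (pow_le_pow_right₀ hm1 (mem_Icc.1 hs).2)
          exact mul_le_mul (hx s hs) h3 (abs_nonneg _) hH
      _ = S * (H * (m : ℝ) ^ S) := by simp
  calc |(b : ℝ) + ∑ n ∈ Ico 1 m, ∑ s ∈ Icc 1 S, (x s : ℝ) * ((m : ℝ) / n) ^ s|
      ≤ |(b : ℝ)| + |∑ n ∈ Ico 1 m, ∑ s ∈ Icc 1 S, (x s : ℝ) * ((m : ℝ) / n) ^ s| :=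
        abs_add_le _ _
    _ ≤ H + ∑ n ∈ Ico 1 m, S * (H * (m : ℝ) ^ S) := by
        refine add_le_add hb ((abs_sum_le_sum_abs _ _).trans (sum_le_sum h1))
    _ = H + ((m : ℝ) - 1) * (S * (H * (m : ℝ) ^ S)) := by
        rw [sum_const, Nat.card_Ico, nsmul_eq_mul, Nat.cast_sub hm, Nat.cast_one]
    _ ≤ S * (H * (m : ℝ) ^ S) + ((m : ℝ) - 1) * (S * (H * (m : ℝ) ^ S)) := by
        have h2 : 1 ≤ (m : ℝ) ^ S := one_le_pow₀ hm1
        have h3 : H ≤ H * (m : ℝ) ^ S := le_mul_of_one_le_right hH h2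
        have h4 : H * (m : ℝ) ^ S ≤ S * (H * (m : ℝ) ^ S) :=
          le_mul_of_one_le_left (by positivity) hS1
        linarith
    _ = H * S * (m : ℝ) ^ (S + 1) := by ring

lemma log_lcmUpto_le (n : ℕ) : Real.log (Nat.lcmUpto n) ≤ 5.4 * n := by
  rw [← Chebyshev.psi_eq_log_lcmUpto]
  refine (Chebyshev.psi_le_const_mul_self (Nat.cast_nonneg n)).trans ?_
  have h : Real.log 4 ≤ 1.4 := by
    have h1 : Real.log 4 = 2 * Real.log 2 := by
      rw [show (4 : ℝ) = 2 ^ 2 by norm_num, Real.log_pow]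
      norm_num
    have := Real.log_two_lt_d9
    rw [h1]
    linarith
  have h2 : (0 : ℝ) ≤ n := Nat.cast_nonneg n
  nlinarith

/-- the numerical inequality -/
lemma num_ineq (k S M m : ℕ) (hS : 1 ≤ S) (hM : 2 ≤ M) (hk : 36 * M ^ 2 * S ≤ k) (H : ℝ)
    (hH1 : 1 ≤ H) (hH : Real.log H ≤ k / (6 * M)) (hm : 1 ≤ m) (hmM : m ≤ M) :
    4 * H * S * (Nat.lcmUpto (m - 1) : ℝ) ^ S * ((m : ℝ) + 1) ^ (S + 3) * (m : ℝ) ^ k ≤
      ((m : ℝ) + 1) ^ k := by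
  have hS1 : (1 : ℝ) ≤ S := by exact_mod_cast hS
  have hM1 : (2 : ℝ) ≤ M := by exact_mod_cast hM
  have hm1 : (1 : ℝ) ≤ m := by exact_mod_cast hm
  have hmM1 : (m : ℝ) ≤ M := by exact_mod_cast hmM
  have hL : (0 : ℝ) < (Nat.lcmUpto (m - 1) : ℝ) := by exact_mod_cast Nat.lcmUpto_pos _
  have hk1 : 36 * (M : ℝ) ^ 2 * S ≤ k := by exact_mod_cast hk
  have hMS : 2 ≤ (M : ℝ) * S := by nlinarith
  rw [← Real.log_le_log_iff (by positivity) (by positivity)]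
  have e1 : Real.log (4 * H * S * (Nat.lcmUpto (m - 1) : ℝ) ^ S * ((m : ℝ) + 1) ^ (S + 3) *
      (m : ℝ) ^ k) = Real.log 4 + Real.log H + Real.log S + S * Real.log (Nat.lcmUpto (m - 1)) +
        (S + 3) * Real.log ((m : ℝ) + 1) + k * Real.log m := by
    rw [Real.log_mul (by positivity) (by positivity), Real.log_mul (by positivity) (by positivity),
      Real.log_mul (by positivity) (by positivity), Real.log_mul (by positivity) (by positivity),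
      Real.log_mul (by positivity) (by positivity), Real.log_pow, Real.log_pow, Real.log_pow]
    push_cast
    ring
  rw [e1, Real.log_pow]
  have h4 : Real.log 4 ≤ 1.4 := by
    have h1 : Real.log 4 = 2 * Real.log 2 := by
      rw [show (4 : ℝ) = 2 ^ 2 by norm_num, Real.log_pow]
      norm_num
    have := Real.log_two_lt_d9
    rw [h1]
    linarith
  have hlS : Real.log S ≤ S := (Real.log_le_sub_one_of_pos (by linarith)).trans (by linarith)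
  have hlL : Real.log (Nat.lcmUpto (m - 1)) ≤ 5.4 * M := by
    refine (log_lcmUpto_le (m - 1)).trans ?_
    have : ((m - 1 : ℕ) : ℝ) ≤ M := by
      have : m - 1 ≤ M := by omega
      exact_mod_cast this
    linarith
  have hlm : Real.log ((m : ℝ) + 1) ≤ M := by
    refine (Real.log_le_sub_one_of_pos (by linarith)).trans ?_
    linarith
  have hlm0 : 0 ≤ Real.log ((m : ℝ) + 1) := Real.log_nonneg (by linarith)
  have h5 : 1 / ((m : ℝ) + 1) ≤ Real.log ((m : ℝ) + 1) - Real.log m := by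
    rw [← Real.log_div (by positivity) (by positivity)]
    have h6 := Real.one_sub_inv_le_log_of_pos (x := ((m : ℝ) + 1) / m) (by positivity)
    have h7 : 1 - (((m : ℝ) + 1) / m)⁻¹ = 1 / ((m : ℝ) + 1) := by
      field_simp
      ring
    linarith
  have h6 : 2 / (3 * (M : ℝ)) ≤ 1 / ((m : ℝ) + 1) := by
    rw [div_le_div_iff₀ (by positivity) (by positivity)]
    linarith
  have h7 : (k : ℝ) * (2 / (3 * M)) ≤ k * (Real.log ((m : ℝ) + 1) - Real.log m) := by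
    gcongr
    exact h6.trans h5
  have h8 : (k : ℝ) * (2 / (3 * M)) = k / (6 * M) + k / (2 * M) := by
    field_simp
    ring
  have h9 : 18 * (M * S : ℝ) ≤ k / (2 * M) := by
    rw [le_div_iff₀ (by positivity)]
    nlinarith
  have h10 : S * Real.log (Nat.lcmUpto (m - 1)) ≤ 5.4 * (M * S : ℝ) := by
    nlinarith
  have h11 : ((S : ℝ) + 3) * Real.log ((m : ℝ) + 1) ≤ 4 * (M * S) := by
    have : ((S : ℝ) + 3) ≤ 4 * S := by linarith
    calc ((S : ℝ) + 3) * Real.log ((m : ℝ) + 1) ≤ 4 * S * M := by gcongr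
      _ = 4 * (M * S) := by ring
  have h12 : (S : ℝ) ≤ M * S := le_mul_of_one_le_left (by linarith) (by linarith)
  nlinarith

/-- the terms of the series -/
noncomputable def uu (b : ℤ) (x : ℕ → ℤ) (S k m : ℕ) : ℝ :=
  ((PP b x S (m + 1) : ℚ) : ℝ) / ((m + 1 : ℕ) : ℝ) ^ k

lemma sum_sq : (∑' m : ℕ, 1 / ((m : ℝ) + 1) ^ 2) ≤ 2 ∧
    Summable fun m : ℕ => 1 / ((m : ℝ) + 1) ^ 2 := by
  have h1 := hasSum_zeta_two
  have h2 : Summable fun n : ℕ => 1 / (n : ℝ) ^ 2 := h1.summable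
  have h3 : Summable fun m : ℕ => 1 / ((m : ℝ) + 1) ^ 2 := by
    have := (summable_nat_add_iff 1).2 h2
    simpa using this
  refine ⟨?_, h3⟩
  have h4 := h2.sum_add_tsum_nat_add 1
  rw [h1.tsum_eq] at h4
  simp only [range_one, sum_singleton, Nat.cast_zero, ne_eq, OfNat.ofNat_ne_zero,
    not_false_eq_true, zero_pow, div_zero, zero_add, Nat.cast_add, Nat.cast_one] at h4
  rw [h4]
  have h5 := Real.pi_lt_d2
  have h6 := Real.pi_pos
  nlinarith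

/-- bound for the tail of the series -/
lemma tail (b : ℤ) (x : ℕ → ℤ) (S k : ℕ) (hS : 1 ≤ S) (hk : S + 3 ≤ k) (H : ℝ)
    (hb : |(b : ℝ)| ≤ H) (hx : ∀ s ∈ Icc 1 S, |(x s : ℝ)| ≤ H) (μ : ℕ) :
    (Summable fun m => uu b x S k (μ + m)) ∧
      |∑' m, uu b x S k (μ + m)| ≤
        2 * H * S * ((μ : ℝ) + 1) ^ (S + 3) / ((μ : ℝ) + 1) ^ k := by
  have hH : 0 ≤ H := (abs_nonneg _).trans hb
  have h1 : ∀ m : ℕ, ‖uu b x S k (μ + m)‖ ≤
      (H * S * ((μ : ℝ) + 1) ^ (S + 3) / ((μ : ℝ) + 1) ^ k) * (1 / ((m : ℝ) + 1) ^ 2) := by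
    intro m
    rw [uu, Real.norm_eq_abs, abs_div, abs_of_pos (a := (((μ + m + 1 : ℕ) : ℝ)) ^ k)
      (by positivity)]
    have h2 := PP_upper b x S (μ + m + 1) hS (by omega) H hb hx
    have hq : (0 : ℝ) < ((μ + m + 1 : ℕ) : ℝ) := by positivity
    have hμ : (0 : ℝ) < (μ : ℝ) + 1 := by positivity
    have hm : (0 : ℝ) < (m : ℝ) + 1 := by positivity
    have h3 : ((m : ℝ) + 1) ≤ ((μ + m + 1 : ℕ) : ℝ) := by
      push_cast
      have : (0 : ℝ) ≤ μ := Nat.cast_nonneg μ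
      linarith
    have h4 : ((μ : ℝ) + 1) ≤ ((μ + m + 1 : ℕ) : ℝ) := by
      push_cast
      have : (0 : ℝ) ≤ m := Nat.cast_nonneg m
      linarith
    obtain ⟨l, rfl⟩ := Nat.exists_eq_add_of_le hk
    calc |((PP b x S (μ + m + 1) : ℚ) : ℝ)| / ((μ + m + 1 : ℕ) : ℝ) ^ (S + 3 + l)
        ≤ (H * S * ((μ + m + 1 : ℕ) : ℝ) ^ (S + 1)) / ((μ + m + 1 : ℕ) : ℝ) ^ (S + 3 + l) := by
          gcongr
      _ = (H * S) * (1 / ((μ + m + 1 : ℕ) : ℝ) ^ l) * (1 / ((μ + m + 1 : ℕ) : ℝ) ^ 2) := by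
          have e : ((μ + m + 1 : ℕ) : ℝ) ^ (S + 3 + l) =
            ((μ + m + 1 : ℕ) : ℝ) ^ (S + 1) * ((μ + m + 1 : ℕ) : ℝ) ^ l *
              ((μ + m + 1 : ℕ) : ℝ) ^ 2 := by ring
          rw [e]
          field_simp
      _ ≤ (H * S) * (1 / ((μ : ℝ) + 1) ^ l) * (1 / ((m : ℝ) + 1) ^ 2) := by
          gcongr
      _ = (H * S * ((μ : ℝ) + 1) ^ (S + 3) / ((μ : ℝ) + 1) ^ (S + 3 + l)) *
            (1 / ((m : ℝ) + 1) ^ 2) := by
          rw [pow_add ((μ : ℝ) + 1) (S + 3) l]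
          field_simp
  obtain ⟨h2, h3⟩ := sum_sq
  have h4 : Summable fun m : ℕ =>
      (H * S * ((μ : ℝ) + 1) ^ (S + 3) / ((μ : ℝ) + 1) ^ k) * (1 / ((m : ℝ) + 1) ^ 2) :=
    h3.mul_left _
  refine ⟨Summable.of_norm_bounded h4 h1, ?_⟩
  rw [← Real.norm_eq_abs]
  refine (tsum_of_norm_bounded h4.hasSum h1).trans ?_
  rw [tsum_mul_left]
  have h5 : 0 ≤ H * S * ((μ : ℝ) + 1) ^ (S + 3) / ((μ : ℝ) + 1) ^ k := by positivity
  calc _ ≤ (H * S * ((μ : ℝ) + 1) ^ (S + 3) / ((μ : ℝ) + 1) ^ k) * 2 := by gcongr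
    _ = _ := by ring

/-- the lower bound for the sum of the series -/
lemma lower (k S M : ℕ) (hS : 1 ≤ S) (hM : 2 ≤ M) (hk : 36 * M ^ 2 * S ≤ k) (H : ℝ)
    (hH1 : 1 ≤ H) (hH : Real.log H ≤ k / (6 * M)) (a b : ℤ) (x : ℕ → ℤ)
    (hb : |(b : ℝ)| ≤ H) (hx : ∀ s ∈ Icc 1 S, |(x s : ℝ)| ≤ H)
    (hne : a + b ≠ 0 ∨ ∃ m, 2 ≤ m ∧ m ≤ M ∧ PP b x S m ≠ 0) :
    1 / (2 * Real.exp (5.4 * (M * S)) * (M : ℝ) ^ k) ≤ |(a : ℝ) + ∑' m, uu b x S k m| := by
  have hS1 : (1 : ℝ) ≤ S := by exact_mod_cast hS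
  have hM1 : (2 : ℝ) ≤ M := by exact_mod_cast hM
  have hkS : S + 3 ≤ k := by
    have h1 : 36 * 2 ^ 2 * S ≤ 36 * M ^ 2 * S := by gcongr
    omega
  have hsum := tail b x S k hS hkS H hb hx
  have hs0 : Summable fun m => uu b x S k m := by simpa using (hsum 0).1
  have hu0 : uu b x S k 0 = b := by
    rw [uu, PP]
    simp
  -- splitting
  have hsplit : ∀ μ : ℕ, (a : ℝ) + ∑' m, uu b x S k m =
      (a + ∑ m ∈ range (μ + 1), uu b x S k m) + ∑' m, uu b x S k (μ + 1 + m) := by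
    intro μ
    have h1 := hs0.sum_add_tsum_nat_add (μ + 1)
    rw [← h1, add_assoc]
    congr 3
    funext m
    congr 1
    ring
  -- the tail after the index `μ`
  have htail : ∀ m : ℕ, 1 ≤ m → m ≤ M → |∑' j, uu b x S k (m + j)| ≤
      1 / (2 * ((Nat.lcmUpto (m - 1) : ℝ) ^ S * (m : ℝ) ^ k)) := by
    intro m hm hmM
    have h1 := num_ineq k S M m hS hM hk H hH1 hH hm hmM
    refine (hsum m).2.trans ?_
    have hL : (0 : ℝ) < (Nat.lcmUpto (m - 1) : ℝ) := by exact_mod_cast Nat.lcmUpto_pos _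
    have hm0 : (0 : ℝ) < m := by exact_mod_cast hm
    rw [div_le_div_iff₀ (by positivity) (by positivity)]
    nlinarith
  have hexp : ∀ m : ℕ, 1 ≤ m → m ≤ M → (Nat.lcmUpto (m - 1) : ℝ) ^ S * (m : ℝ) ^ k ≤
      Real.exp (5.4 * (M * S)) * (M : ℝ) ^ k := by
    intro m hm hmM
    have hL : (0 : ℝ) < (Nat.lcmUpto (m - 1) : ℝ) := by exact_mod_cast Nat.lcmUpto_pos _
    have h1 : (Nat.lcmUpto (m - 1) : ℝ) ≤ Real.exp (5.4 * M) := by
      rw [← Real.log_le_iff_le_exp hL]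
      refine (log_lcmUpto_le (m - 1)).trans ?_
      have : ((m - 1 : ℕ) : ℝ) ≤ M := by
        have : m - 1 ≤ M := by omega
        exact_mod_cast this
      linarith
    have h2 : (m : ℝ) ≤ M := by exact_mod_cast hmM
    calc (Nat.lcmUpto (m - 1) : ℝ) ^ S * (m : ℝ) ^ k ≤ (Real.exp (5.4 * M)) ^ S * (M : ℝ) ^ k := by
          gcongr
      _ = _ := by
          rw [← Real.exp_nat_mul]
          congr 2
          ring
  by_cases hab : a + b = 0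
  · obtain ⟨m0, hm0, hm0M, hm0P⟩ := hne.resolve_left (not_not.2 hab)
    -- the first index
    classical
    have hex : ∃ m, 2 ≤ m ∧ PP b x S m ≠ 0 := ⟨m0, hm0, hm0P⟩
    set μ := Nat.find hex with hμ
    have hμ1 := (Nat.find_spec hex).1
    have hμ2 := (Nat.find_spec hex).2
    rw [← hμ] at hμ1 hμ2
    have hμM : μ ≤ M := (Nat.find_le ⟨hm0, hm0P⟩).trans hm0M
    have hμmin : ∀ m, 2 ≤ m → m < μ → PP b x S m = 0 := by
      intro m hm hmμ
      by_contra h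
      exact Nat.find_min hex hmμ ⟨hm, h⟩
    obtain ⟨ν, hν⟩ : ∃ ν, μ = ν + 2 := ⟨μ - 2, by omega⟩
    have h1 : (a : ℝ) + ∑ m ∈ range (μ - 1 + 1), uu b x S k m = uu b x S k (μ - 1) := by
      rw [hν]
      have e : ν + 2 - 1 + 1 = (ν + 1) + 1 := by omega
      have e2 : ν + 2 - 1 = ν + 1 := by omega
      rw [e, e2, sum_range_succ, sum_range_succ']
      rw [hu0, sum_eq_zero (fun m hm => by
        rw [uu, hμmin (m + 1 + 1) (by omega) (by
          have := mem_range.1 hm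
          omega)]
        simp)]
      have h2 : (a : ℝ) + b = 0 := by exact_mod_cast hab
      linarith
    rw [hsplit (μ - 1), h1]
    have e3 : μ - 1 + 1 = μ := by omega
    rw [e3]
    have h2 := htail μ (by omega) hμM
    have h3 : 1 / ((Nat.lcmUpto (μ - 1) : ℝ) ^ S * (μ : ℝ) ^ k) ≤ |uu b x S k (μ - 1)| := by
      rw [uu, e3, abs_div, abs_of_pos (a := ((μ : ℕ) : ℝ) ^ k) (by positivity), ← div_div]
      gcongr
      exact PP_lower b x S μ hμ2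
    have h4 := hexp μ (by omega) hμM
    have hL : (0 : ℝ) < (Nat.lcmUpto (μ - 1) : ℝ) := by exact_mod_cast Nat.lcmUpto_pos _
    have hμ0 : (0 : ℝ) < μ := by
      have : 0 < μ := by omega
      exact_mod_cast this
    have h5 : 1 / (2 * Real.exp (5.4 * (M * S)) * (M : ℝ) ^ k) ≤
        1 / (2 * ((Nat.lcmUpto (μ - 1) : ℝ) ^ S * (μ : ℝ) ^ k)) := by
      apply one_div_le_one_div_of_le (by positivity)
      nlinarith
    have h6 : 1 / (2 * ((Nat.lcmUpto (μ - 1) : ℝ) ^ S * (μ : ℝ) ^ k)) =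
        1 / ((Nat.lcmUpto (μ - 1) : ℝ) ^ S * (μ : ℝ) ^ k) / 2 := by
      rw [div_div]
      ring
    have h7 := abs_sub_abs_le_abs_sub (uu b x S k (μ - 1)) (-(∑' m, uu b x S k (μ + m)))
    rw [abs_neg, sub_neg_eq_add] at h7
    linarith
  · rw [hsplit 0]
    have h1 := htail 1 le_rfl (by omega)
    rw [zero_add, sum_range_one, hu0]
    have h2 : (1 : ℝ) ≤ |(a : ℝ) + b| := by exact_mod_cast Int.one_le_abs hab
    have h3 := hexp 1 le_rfl (by omega)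
    have h4 : Nat.lcmUpto (1 - 1) = 1 := by decide
    rw [h4] at h1 h3
    simp only [Nat.cast_one, one_pow, mul_one] at h1 h3
    have h5 : 1 / (2 * Real.exp (5.4 * (M * S)) * (M : ℝ) ^ k) ≤ 1 / 2 := by
      apply one_div_le_one_div_of_le (by positivity)
      nlinarith
    have h7 := abs_sub_abs_le_abs_sub ((a : ℝ) + b) (-(∑' m, uu b x S k (1 + m)))
    rw [abs_neg, sub_neg_eq_add] at h7
    linarith

end Pool.Agent.D0H25.DZ
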