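import Mathlib
import Pool.Agent.D0H25.DZ.Ana

/-!
# The choice of the parameters
-/

set_option autoImplicit false

namespace Pool.Agent.D0H25.DZ

open Finset

lemma theta_lower (n : ℕ) (hn : 10 ^ 10 ≤ n) : 0.6 * (n : ℝ) ≤ Chebyshev.theta n := by
  have h1 := Chebyshev.theta_ge n
  have hn1 : (10 : ℝ) ^ 10 ≤ n := by exact_mod_cast hn
  have hn0 : (0 : ℝ) < n := by linarith [show (0 : ℝ) < 10 ^ 10 by norm_num]
  set r : ℝ := √(√(n : ℝ)) with hr
  have hr2 : r ^ 2 = √(n : ℝ) := Real.sq_sqrt (Real.sqrt_nonneg _)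
  have hr4 : r ^ 4 = (n : ℝ) := by
    have e : r ^ 4 = (r ^ 2) ^ 2 := by ring
    rw [e, hr2]
    exact Real.sq_sqrt hn0.le
  have hr0 : 0 ≤ r := Real.sqrt_nonneg _
  have hr300 : 300 ≤ r := by
    by_contra h
    push Not at h
    have : r ^ 4 < 300 ^ 4 := by gcongr
    rw [hr4] at this
    norm_num at this
    linarith
  have hlog : Real.log n ≤ 4 * r := by
    rw [← hr4, Real.log_pow]
    have := Real.log_le_sub_one_of_pos (show (0 : ℝ) < r by linarith)
    push_cast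
    linarith
  have hlog1 : Real.log ((n : ℝ) + 1) ≤ 4 * (r ^ 2 * r) := by
    have h2 : Real.log ((n : ℝ) + 1) ≤ Real.log ((n : ℝ) ^ 2) :=
      Real.log_le_log (by linarith) (by nlinarith)
    rw [Real.log_pow] at h2
    push_cast at h2
    nlinarith
  rw [← hr2] at h1
  have hlog0 : 0 ≤ Real.log (n : ℝ) := Real.log_nonneg (by linarith)
  have h3 : 2 * r ^ 2 * Real.log n ≤ 8 * (r ^ 2 * r) := by nlinarith [sq_nonneg r]
  have h4 : 12 * (r ^ 2 * r) ≤ 0.05 * n := by
    rw [← hr4]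
    have : 12 * (r ^ 2 * r) * 1 ≤ 12 * (r ^ 2 * r) * (r / 300) := by
      apply mul_le_mul_of_nonneg_left _ (by positivity)
      rw [le_div_iff₀ (by norm_num)]
      linarith
    nlinarith [pow_nonneg hr0 4]
  have h5 := Real.log_two_gt_d9
  nlinarith

lemma QQ_lower (y : ℕ) (hy : 10 ^ 10 ≤ y) : (y : ℝ) ^ 2 / 20 ≤ Real.log (QQ y) := by
  have hy1 : (10 : ℝ) ^ 10 ≤ y := by exact_mod_cast hy
  set z := y / 4 with hz
  have hz1 : (y : ℝ) / 5 ≤ z := by
    have h1 : y ≤ 5 * z := by omega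
    have : (y : ℝ) ≤ 5 * z := by exact_mod_cast h1
    linarith
  have hz2 : (z : ℝ) ≤ y / 4 := by
    have h1 : 4 * z ≤ y := by omega
    have : 4 * (z : ℝ) ≤ y := by exact_mod_cast h1
    linarith
  have h1 : Real.log (QQ y) = ∑ p ∈ Nat.primesLE y, ((p - 1 : ℕ) : ℝ) * Real.log p := by
    rw [QQ]
    push_cast
    rw [Real.log_prod (fun p hp => by
      have := (Nat.mem_primesLE.1 hp).2.pos
      positivity)]
    exact sum_congr rfl fun p _ => Real.log_pow _ _
  have h2 : Nat.primesLE z ⊆ Nat.primesLE y := fun p hp => by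
    rw [Nat.mem_primesLE] at hp ⊢
    exact ⟨hp.1.trans (by omega), hp.2⟩
  have h3 : (z : ℝ) * (Chebyshev.theta y - Chebyshev.theta z) ≤ Real.log (QQ y) := by
    rw [h1, Chebyshev.theta_eq_sum_primesLE_log, Chebyshev.theta_eq_sum_primesLE_log,
      ← sum_sdiff h2, add_sub_cancel_right, mul_sum, ← sum_sdiff h2]
    refine le_trans (sum_le_sum (g := fun p => ((p - 1 : ℕ) : ℝ) * Real.log p) fun p hp => ?_)
      (le_add_of_nonneg_right (sum_nonneg fun p _ => mul_nonneg (Nat.cast_nonneg _)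
        (Real.log_natCast_nonneg _)))
    rw [mem_sdiff, Nat.mem_primesLE, Nat.mem_primesLE] at hp
    have h4 : z ≤ p - 1 := by
      have : ¬ p ≤ z := fun h => hp.2 ⟨h, hp.1.2⟩
      omega
    exact mul_le_mul_of_nonneg_right (by exact_mod_cast h4) (Real.log_natCast_nonneg _)
  have h4 := theta_lower y hy
  have h5 := Chebyshev.theta_le_log4_mul_x (x := (z : ℝ)) (Nat.cast_nonneg _)
  have h6 : Real.log 4 ≤ 1.4 := by
    have h1 : Real.log 4 = 2 * Real.log 2 := by
      rw [show (4 : ℝ) = 2 ^ 2 by norm_num, Real.log_pow]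
      norm_num
    have := Real.log_two_lt_d9
    rw [h1]
    linarith
  have hz0 : (0 : ℝ) ≤ z := Nat.cast_nonneg _
  have h7 : 0.25 * (y : ℝ) ≤ Chebyshev.theta y - Chebyshev.theta z := by nlinarith
  have h8 : (y : ℝ) / 5 * (0.25 * (y : ℝ)) ≤ z * (Chebyshev.theta y - Chebyshev.theta z) := by
    gcongr
  nlinarith

lemma PP_top (b : ℤ) (x : ℕ → ℤ) (R S m : ℕ) (hRS : R ≤ S)
    (h : ∀ s ∈ Icc 1 S, R < s → x s = 0) : PP b x R m = PP b x S m := by
  rw [PP, PP]
  congr 1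
  refine sum_congr rfl fun n _ => ?_
  refine sum_subset (Icc_subset_Icc_right hRS) fun s hs hs' => ?_
  have h1 : R < s := by
    rw [mem_Icc] at hs hs'
    omega
  rw [h s hs h1]
  simp

/-- the largest index -/
lemma exists_top (x : ℕ → ℤ) (S : ℕ) (hx : ¬ ∀ s ∈ Icc 1 S, x s = 0) :
    ∃ R, 1 ≤ R ∧ R ≤ S ∧ x R ≠ 0 ∧ ∀ s ∈ Icc 1 S, R < s → x s = 0 := by
  push Not at hx
  obtain ⟨s0, hs0, hs0x⟩ := hx
  set T := (Icc 1 S).filter fun s => x s ≠ 0 with hT
  have hTne : T.Nonempty := ⟨s0, mem_filter.2 ⟨hs0, hs0x⟩⟩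
  have hRT := mem_filter.1 (hT ▸ T.max'_mem hTne : T.max' hTne ∈ (Icc 1 S).filter fun s => x s ≠ 0)
  rw [mem_Icc] at hRT
  refine ⟨T.max' hTne, hRT.1.1, hRT.1.2, hRT.2, fun s hs hlt => ?_⟩
  by_contra hsx
  have := T.le_max' s (mem_filter.2 ⟨hs, hsx⟩)
  omega

/-- the main estimate -/
lemma main (k S : ℕ) (U : ℝ) (hS : 1 ≤ S) (c : ℝ) (hc0 : 0 < c) (hc : c ≤ 1 / 10 ^ 24)
    (hSk : (S : ℝ) ≤ c * k) (hU1 : min (S : ℝ) ((k : ℝ) ^ (1 / 3 : ℝ)) ≤ U) (hU2 : U ≤ S)
    (a b : ℤ) (x : ℕ → ℤ) (hne : ¬ (a = 0 ∧ b = 0 ∧ ∀ s ∈ Icc 1 S, x s = 0))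
    (hb : |(b : ℝ)| ≤ Real.exp (c * k / U))
    (hx : ∀ s ∈ Icc 1 S, |(x s : ℝ)| ≤ Real.exp (c * k / max (s : ℝ) U)) :
    ((50 * min (S : ℝ) (√(k / U))) ^ k)⁻¹ < |(a : ℝ) + ∑' m, uu b x S k m| := by
  have hS1 : (1 : ℝ) ≤ S := by exact_mod_cast hS
  have hS0 : (0 : ℝ) < S := by linarith
  have hk0 : (0 : ℝ) < k := by
    by_contra h
    have : (k : ℝ) = 0 := le_antisymm (not_lt.1 h) (Nat.cast_nonneg _)
    rw [this, mul_zero] at hSk
    linarith
  have hkS : (10 : ℝ) ^ 24 * S ≤ k := by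
    have : c * k ≤ 1 / 10 ^ 24 * k := by gcongr
    have h2 : (S : ℝ) ≤ 1 / 10 ^ 24 * k := hSk.trans this
    rw [one_div, ← div_eq_inv_mul, le_div_iff₀ (by norm_num)] at h2
    linarith
  have hk1 : (1 : ℝ) ≤ k := by nlinarith
  have hcub : (1 : ℝ) ≤ (k : ℝ) ^ (1 / 3 : ℝ) := Real.one_le_rpow hk1 (by norm_num)
  have hU0 : 1 ≤ U := (le_min hS1 hcub).trans hU1
  have hUpos : 0 < U := by linarith
  -- everything is bounded by `exp (c k / U)`
  have hx' : ∀ s ∈ Icc 1 S, |(x s : ℝ)| ≤ Real.exp (c * k / U) := by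
    intro s hs
    refine (hx s hs).trans (Real.exp_le_exp.2 ?_)
    have : U ≤ max (s : ℝ) U := le_max_right _ _
    gcongr
  have hH1 : 1 ≤ Real.exp (c * k / U) := Real.one_le_exp (by positivity)
  -- it suffices to find a good `M` for some `R ≤ S`
  have key : ∀ R M : ℕ, 1 ≤ R → R ≤ S → (∀ s ∈ Icc 1 S, R < s → x s = 0) → 2 ≤ M →
      36 * (M : ℝ) ^ 2 * max (R : ℝ) U ≤ k → (M : ℝ) ≤ 8 * S → 6 * c * M ≤ U →
      (a + b ≠ 0 ∨ ∃ m, 2 ≤ m ∧ m ≤ M ∧ PP b x R m ≠ 0) →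
      ((50 * min (S : ℝ) (√(k / U))) ^ k)⁻¹ < |(a : ℝ) + ∑' m, uu b x S k m| := by
    intro R M hR hRS hRx hM hMR hMS hMU hne
    have hM1 : (2 : ℝ) ≤ M := by exact_mod_cast hM
    have hR1 : (1 : ℝ) ≤ R := by exact_mod_cast hR
    have h1 : 36 * (M : ℝ) ^ 2 * R ≤ k := by
      refine le_trans ?_ hMR
      gcongr
      exact le_max_left _ _
    have h1' : 36 * (M : ℝ) ^ 2 * U ≤ k := by
      refine le_trans ?_ hMR
      gcongr
      exact le_max_right _ _
    have h2 : Real.log (Real.exp (c * k / U)) ≤ k / (6 * M) := by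
      rw [Real.log_exp, div_le_div_iff₀ hUpos (by positivity)]
      nlinarith
    have huu : ∀ m, uu b x S k m = uu b x R k m := by
      intro m
      rw [uu, uu, PP_top b x R S (m + 1) hRS hRx]
    have h3 := lower k R M hR hM (by exact_mod_cast h1) _ hH1 h2 a b x hb
      (fun s hs => hx' s (Icc_subset_Icc_right hRS hs)) hne
    rw [tsum_congr huu]
    refine lt_of_lt_of_le ?_ h3
    rw [← one_div]
    have hmin : (M : ℝ) ≤ 8 * min (S : ℝ) (√(k / U)) := by
      rcases min_choice (S : ℝ) (√(k / U)) with h | h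
      · rw [h]; exact hMS
      · rw [h]
        have h4 : (M : ℝ) ≤ √(k / U) := by
          apply Real.le_sqrt_of_sq_le
          rw [le_div_iff₀ hUpos]
          nlinarith
        have : 0 ≤ √((k : ℝ) / U) := Real.sqrt_nonneg _
        linarith
    set D := min (S : ℝ) (√(k / U)) with hD
    have hD0 : 0 < D := by linarith
    apply one_div_lt_one_div_of_lt (by positivity)
    have h4 : 5.4 * ((M : ℝ) * R) ≤ k := by nlinarith
    have hk1 : k ≠ 0 := by
      rintro rfl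
      simp at hk0
    calc 2 * Real.exp (5.4 * (M * R)) * (M : ℝ) ^ k ≤ 2 ^ k * (Real.exp 1) ^ k * (8 * D) ^ k := by
          have h5 : (2 : ℝ) ≤ 2 ^ k := by
            calc (2 : ℝ) = 2 ^ 1 := by norm_num
              _ ≤ 2 ^ k := pow_le_pow_right₀ (by norm_num) (Nat.one_le_iff_ne_zero.2 hk1)
          have h6 : Real.exp (5.4 * (M * R)) ≤ Real.exp 1 ^ k := by
            rw [← Real.exp_nat_mul]
            apply Real.exp_le_exp.2
            linarith
          gcongr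
      _ = (2 * Real.exp 1 * (8 * D)) ^ k := by
          rw [mul_pow (2 * Real.exp 1) (8 * D), mul_pow 2 (Real.exp 1)]
      _ < (50 * D) ^ k := by
          refine pow_lt_pow_left₀ ?_ (by positivity) hk1
          have := Real.exp_one_lt_d9
          nlinarith
  -- the case of `M = 2`
  have hU8 : U ≤ S := hU2
  have key2 : ∀ R : ℕ, 1 ≤ R → R ≤ S → (∀ s ∈ Icc 1 S, R < s → x s = 0) →
      (a + b ≠ 0 ∨ ∃ m, 2 ≤ m ∧ m ≤ 2 ∧ PP b x R m ≠ 0) →
      ((50 * min (S : ℝ) (√(k / U))) ^ k)⁻¹ < |(a : ℝ) + ∑' m, uu b x S k m| := by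
    intro R hR hRS hRx h
    have hR2 : (R : ℝ) ≤ S := by exact_mod_cast hRS
    refine key R 2 hR hRS hRx le_rfl ?_ ?_ ?_ h
    · have : max (R : ℝ) U ≤ S := max_le hR2 hU2
      push_cast
      linarith
    · push_cast
      linarith
    · push_cast
      linarith
  by_cases hab : a + b = 0
  swap
  · exact key2 S hS le_rfl (fun s hs h => absurd (mem_Icc.1 hs).2 (by omega)) (Or.inl hab)
  by_cases hx0 : ∀ s ∈ Icc 1 S, x s = 0
  · refine key2 S hS le_rfl (fun s hs h => absurd (mem_Icc.1 hs).2 (by omega))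
      (Or.inr ⟨2, le_rfl, le_rfl, ?_⟩)
    rw [PP_two, sum_eq_zero fun s hs => by rw [hx0 s hs, zero_mul], add_zero]
    intro h
    have hb0 : b = 0 := by exact_mod_cast h
    exact hne ⟨by omega, hb0, hx0⟩
  obtain ⟨R, hR, hRS, hRx, hRtop⟩ := exists_top x S hx0
  have hR1 : (1 : ℝ) ≤ R := by exact_mod_cast hR
  have hR2 : (R : ℝ) ≤ S := by exact_mod_cast hRS
  set V : ℝ := max (R : ℝ) U with hV
  have hV0 : 0 < V := lt_of_lt_of_le hUpos (le_max_right _ _)
  have hVS : V ≤ S := max_le hR2 hU2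
  set t : ℝ := √((k : ℝ) / V) / 6 with ht
  have ht2 : 36 * t ^ 2 * V = k := by
    rw [ht, div_pow, Real.sq_sqrt (by positivity)]
    field_simp
    norm_num
  have htbig : 10 ^ 11 ≤ t := by
    rw [ht, le_div_iff₀ (by norm_num)]
    apply Real.le_sqrt_of_sq_le
    rw [le_div_iff₀ hV0]
    nlinarith
  have ht0 : (0 : ℝ) < t := by linarith [show (0 : ℝ) < 10 ^ 11 by norm_num]
  -- either `U ≥ S`, or `U ^ 3 ≥ k`
  have hU3 : (S : ℝ) ≤ U ∨ (k : ℝ) ≤ U ^ 3 := by
    rcases min_choice (S : ℝ) ((k : ℝ) ^ (1 / 3 : ℝ)) with h | h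
    · left; rw [h] at hU1; exact hU1
    · right
      rw [h] at hU1
      calc (k : ℝ) = ((k : ℝ) ^ (1 / 3 : ℝ)) ^ (3 : ℕ) := by
            rw [← Real.rpow_natCast, ← Real.rpow_mul hk0.le]
            norm_num
        _ ≤ U ^ 3 := by gcongr
  have hmon : ∀ M : ℕ, (M : ℝ) ≤ t → 36 * (M : ℝ) ^ 2 * max (R : ℝ) U ≤ k := by
    intro M hM
    rw [← hV, ← ht2]
    gcongr
  by_cases hreg : 4 * (R : ℝ) + 4 ≤ t
  · -- small `R`
    obtain ⟨p, hp, hp1, hp2⟩ := Nat.exists_prime_lt_and_le_two_mul (R + 1) (by omega)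
    have hRU : (R : ℝ) ≤ U := by
      rcases hU3 with h | h
      · linarith
      · by_contra hlt
        push Not at hlt
        have hVR : V = R := max_eq_left hlt.le
        have h1 : 36 * (4 * (R : ℝ)) ^ 2 * R ≤ k := by
          rw [← ht2, hVR]
          have : 4 * (R : ℝ) ≤ t := by linarith
          gcongr
        have h2 : U ^ 3 < (R : ℝ) ^ 3 := by gcongr
        nlinarith
    refine key R (4 * R + 4) hR hRS hRtop (by omega) (hmon _ (by push_cast; exact hreg)) ?_ ?_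
      (Or.inr ?_)
    · push_cast
      linarith
    · push_cast
      have : 6 * c * (4 * (R : ℝ) + 4) ≤ 6 * (1 / 10 ^ 24) * (4 * (R : ℝ) + 4) := by gcongr
      linarith
    · by_contra hcon
      push Not at hcon
      exact hRx (top_zero b x R p (4 * R + 4) hp hR (by omega) (by omega) hcon)
  · -- large `R`
    push Not at hreg
    set M := ⌊t⌋₊ with hM
    have hMt : (M : ℝ) ≤ t := Nat.floor_le ht0.le
    have hMt2 : t < M + 1 := Nat.lt_floor_add_one t
    set y := M / 2 with hy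
    have hy1 : (M : ℝ) ≤ 2 * y + 1 := by
      have : M ≤ 2 * y + 1 := by omega
      exact_mod_cast this
    have hyt : t / 4 ≤ y := by linarith [show (4 : ℝ) ≤ 10 ^ 11 by norm_num]
    have hyb : 10 ^ 10 ≤ y := by
      have : (10 : ℝ) ^ 10 ≤ y := by
        refine le_trans ?_ hyt
        rw [le_div_iff₀ (by norm_num)]
        refine le_trans ?_ htbig
        norm_num
      exact_mod_cast this
    have hQ := QQ_lower y hyb
    have hQ0 : (0 : ℝ) < (QQ y : ℝ) := by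
      rw [QQ]
      push_cast
      exact prod_pos fun p hp => by
        have := (Nat.mem_primesLE.1 hp).2.pos
        positivity
    have h1 : Real.exp (c * k / V) < (QQ y : ℝ) := by
      rw [← Real.lt_log_iff_exp_lt hQ0]
      refine lt_of_lt_of_le ?_ hQ
      have h2 : (t / 4) ^ 2 ≤ (y : ℝ) ^ 2 := by gcongr
      have h4 : c * k / V = c * (36 * t ^ 2) := by
        rw [div_eq_iff hV0.ne', ← ht2]
        ring
      rw [h4]
      have h5 : 0 < t ^ 2 := by positivity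
      have h6 : c * (36 * t ^ 2) ≤ 1 / 10 ^ 24 * (36 * t ^ 2) := by gcongr
      nlinarith
    have hMU : (M : ℝ) ≤ 8 * U := by
      rcases hU3 with h | h
      · linarith
      · have h2 : 36 * t ^ 2 * U ≤ U ^ 3 := by
          refine le_trans ?_ h
          rw [← ht2]
          gcongr
          exact le_max_right _ _
        have h3 : 36 * t ^ 2 ≤ U ^ 2 := by
          have h5 : U * (36 * t ^ 2) ≤ U * U ^ 2 := by nlinarith
          exact le_of_mul_le_mul_left h5 hUpos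
        have h4 : 6 * t ≤ U := (sq_le_sq₀ (by positivity) hUpos.le).1 (by nlinarith)
        linarith
    refine key R M hR hRS hRtop (by omega) (hmon M hMt) ?_ ?_ (Or.inr ?_)
    · linarith
    · have : 6 * c * (M : ℝ) ≤ 6 * (1 / 10 ^ 24) * (8 * U) := by gcongr
      linarith
    · by_contra hcon
      push Not at hcon
      have h2 := top_large b x R M y hR hRx (by omega) hcon
      have h3 := hx R (mem_Icc.2 ⟨hR, hRS⟩)
      have h4 : (((QQ y : ℕ) : ℤ) : ℝ) ≤ ((|x R| : ℤ) : ℝ) := by exact_mod_cast h2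
      rw [Int.cast_abs] at h4
      push_cast at h4
      linarith

end Pool.Agent.D0H25.DZ
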